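import Mathlib

/-!
# Normal subgroups of `SL₂(ℤ_p)`

For an odd prime `p` every normal subgroup of `SL₂(ℤ_p)` is finite or of finite index.
-/

set_option autoImplicit false
set_option linter.style.haveILetI false

namespace Pool.Agent.Results.MP_847604_al.SL2Zp

open Topology Matrix

variable {p : ℕ} [Fact p.Prime]

/-- the group `SL₂(ℤ_p)` -/
abbrev SLp (p : ℕ) [Fact p.Prime] : Type := Matrix.SpecialLinearGroup (Fin 2) ℤ_[p]

/-- upper unipotent matrices -/
noncomputable def u (x : ℤ_[p]) : SLp p := ⟨!![1, x; 0, 1], by simp [Matrix.det_fin_two]⟩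

/-- lower unipotent matrices -/
noncomputable def l (x : ℤ_[p]) : SLp p := ⟨!![1, 0; x, 1], by simp [Matrix.det_fin_two]⟩

/-- upper triangular matrices -/
noncomputable def b (s r x : ℤ_[p]) (h : s * r = 1) : SLp p :=
  ⟨!![s, x; 0, r], by simp [Matrix.det_fin_two, h]⟩

/-- the Weyl element -/
noncomputable def w : SLp p := ⟨!![0, 1; -1, 0], by simp [Matrix.det_fin_two]⟩

theorem ext4 {g h : SLp p} (h00 : g.1 0 0 = h.1 0 0) (h01 : g.1 0 1 = h.1 0 1)
    (h10 : g.1 1 0 = h.1 1 0) (h11 : g.1 1 1 = h.1 1 1) : g = h := by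
  apply Subtype.ext
  ext i j
  fin_cases i <;> fin_cases j
  · exact h00
  · exact h01
  · exact h10
  · exact h11

theorem det_eq (g : SLp p) : g.1 0 0 * g.1 1 1 - g.1 0 1 * g.1 1 0 = 1 := by
  have := g.2
  rwa [Matrix.det_fin_two] at this

theorem mul00 (g h : SLp p) : (g * h).1 0 0 = g.1 0 0 * h.1 0 0 + g.1 0 1 * h.1 1 0 := by
  rw [Matrix.SpecialLinearGroup.coe_mul, Matrix.mul_apply, Fin.sum_univ_two]
theorem mul01 (g h : SLp p) : (g * h).1 0 1 = g.1 0 0 * h.1 0 1 + g.1 0 1 * h.1 1 1 := by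
  rw [Matrix.SpecialLinearGroup.coe_mul, Matrix.mul_apply, Fin.sum_univ_two]
theorem mul10 (g h : SLp p) : (g * h).1 1 0 = g.1 1 0 * h.1 0 0 + g.1 1 1 * h.1 1 0 := by
  rw [Matrix.SpecialLinearGroup.coe_mul, Matrix.mul_apply, Fin.sum_univ_two]
theorem mul11 (g h : SLp p) : (g * h).1 1 1 = g.1 1 0 * h.1 0 1 + g.1 1 1 * h.1 1 1 := by
  rw [Matrix.SpecialLinearGroup.coe_mul, Matrix.mul_apply, Fin.sum_univ_two]
theorem inv00 (g : SLp p) : (g⁻¹).1 0 0 = g.1 1 1 := by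
  rw [Matrix.SpecialLinearGroup.coe_inv, Matrix.adjugate_fin_two]; rfl
theorem inv01 (g : SLp p) : (g⁻¹).1 0 1 = -g.1 0 1 := by
  rw [Matrix.SpecialLinearGroup.coe_inv, Matrix.adjugate_fin_two]; rfl
theorem inv10 (g : SLp p) : (g⁻¹).1 1 0 = -g.1 1 0 := by
  rw [Matrix.SpecialLinearGroup.coe_inv, Matrix.adjugate_fin_two]; rfl
theorem inv11 (g : SLp p) : (g⁻¹).1 1 1 = g.1 0 0 := by
  rw [Matrix.SpecialLinearGroup.coe_inv, Matrix.adjugate_fin_two]; rfl

theorem u00 (x : ℤ_[p]) : (u x).1 0 0 = 1 := rfl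
theorem u01 (x : ℤ_[p]) : (u x).1 0 1 = x := rfl
theorem u10 (x : ℤ_[p]) : (u x).1 1 0 = 0 := rfl
theorem u11 (x : ℤ_[p]) : (u x).1 1 1 = 1 := rfl
theorem l00 (x : ℤ_[p]) : (l x).1 0 0 = 1 := rfl
theorem l01 (x : ℤ_[p]) : (l x).1 0 1 = 0 := rfl
theorem l10 (x : ℤ_[p]) : (l x).1 1 0 = x := rfl
theorem l11 (x : ℤ_[p]) : (l x).1 1 1 = 1 := rfl
theorem b00 (s r x : ℤ_[p]) (h : s * r = 1) : (b s r x h).1 0 0 = s := rfl
theorem b01 (s r x : ℤ_[p]) (h : s * r = 1) : (b s r x h).1 0 1 = x := rfl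
theorem b10 (s r x : ℤ_[p]) (h : s * r = 1) : (b s r x h).1 1 0 = 0 := rfl
theorem b11 (s r x : ℤ_[p]) (h : s * r = 1) : (b s r x h).1 1 1 = r := rfl
theorem w00 : (w (p := p)).1 0 0 = 0 := rfl
theorem w01 : (w (p := p)).1 0 1 = 1 := rfl
theorem w10 : (w (p := p)).1 1 0 = -1 := rfl
theorem w11 : (w (p := p)).1 1 1 = 0 := rfl

theorem u_add (x y : ℤ_[p]) : u (x + y) = u x * u y := by
  apply ext4 <;> simp only [mul00, mul01, mul10, mul11, u00, u01, u10, u11] <;> ring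

theorem u_neg (x : ℤ_[p]) : u (-x) = (u x)⁻¹ := by
  apply ext4 <;> simp only [inv00, inv01, inv10, inv11, u00, u01, u10, u11] <;> ring

theorem b_conj_u (s r x : ℤ_[p]) (h : s * r = 1) :
    b s r 0 h * u x * (b s r 0 h)⁻¹ = u (s ^ 2 * x) := by
  apply ext4 <;> simp only [mul00, mul01, mul10, mul11, inv00, inv01, inv10, inv11, u00, u01, u10,
    u11, b00, b01, b10, b11]
  · linear_combination h
  · ring
  · ring
  · linear_combination h

theorem w_conj_u (x : ℤ_[p]) : w * u x * w⁻¹ = l (-x) := by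
  apply ext4 <;> simp only [mul00, mul01, mul10, mul11, inv00, inv01, inv10, inv11, u00, u01, u10,
    u11, w00, w01, w10, w11, l00, l01, l10, l11] <;> ring

theorem diag_eq (a r x z : ℤ_[p]) (h : a * r = 1) (hxz : a = 1 + x * z) :
    b a r 0 h = l (-z * r) * u x * l z * u (-x * r) := by
  have h' : (1 + x * z) * r = 1 := by rw [← hxz]; exact h
  apply ext4 <;> simp only [mul00, mul01, mul10, mul11, u00, u01, u10,
    u11, l00, l01, l10, l11, b00, b01, b10, b11]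
  · rw [hxz]; ring
  · linear_combination x * h'
  · linear_combination z * h'
  · linear_combination (1 - z * x * r) * h'

theorem decomp (g : SLp p) (r : ℤ_[p]) (h : g.1 0 0 * r = 1) :
    g = l (g.1 1 0 * r) * b (g.1 0 0) r 0 h * u (g.1 0 1 * r) := by
  have hd := det_eq g
  apply ext4 <;> simp only [mul00, mul01, mul10, mul11, u00, u01, u10,
    u11, l00, l01, l10, l11, b00, b01, b10, b11]
  · ring
  · linear_combination (-g.1 0 1) * h
  · linear_combination (-g.1 1 0) * h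
  · linear_combination r * hd + (-g.1 1 1 - g.1 1 0 * g.1 0 1 * r) * h

theorem comm_u (h : SLp p) (h10 : h.1 1 0 = 0) :
    h * u 1 * h⁻¹ * (u 1)⁻¹ = u (h.1 0 0 ^ 2 - 1) := by
  have hd := det_eq h
  rw [h10] at hd
  apply ext4 <;> simp only [mul00, mul01, mul10, mul11, inv00, inv01, inv10, inv11, u00, u01, u10,
    u11, h10]
  · linear_combination hd
  · linear_combination -hd
  · ring
  · linear_combination hd

/-- The additive group of the `x` with `u x ∈ N`. -/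
noncomputable def A (N : Subgroup (SLp p)) : AddSubgroup ℤ_[p] where
  carrier := {x | u x ∈ N}
  zero_mem' := by
    have : u (0 : ℤ_[p]) = 1 := by
      apply ext4 <;> simp [u00, u01, u10, u11]
    show u 0 ∈ N
    rw [this]
    exact N.one_mem
  add_mem' := by
    intro x y hx hy
    show u (x + y) ∈ N
    rw [u_add]
    exact N.mul_mem hx hy
  neg_mem' := by
    intro x hx
    show u (-x) ∈ N
    rw [u_neg]
    exact N.inv_mem hx

theorem mem_A {N : Subgroup (SLp p)} {x : ℤ_[p]} : x ∈ A N ↔ u x ∈ N := Iff.rfl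

theorem sq_mul_mem {N : Subgroup (SLp p)} (hN : N.Normal) {x : ℤ_[p]} (hx : x ∈ A N)
    {s : ℤ_[p]} (hs : IsUnit s) : s ^ 2 * x ∈ A N := by
  obtain ⟨v, rfl⟩ := hs
  rw [mem_A, ← b_conj_u (v : ℤ_[p]) ((v⁻¹ : ℤ_[p]ˣ) : ℤ_[p]) x v.mul_inv]
  exact hN.conj_mem _ hx _

theorem four_unit (hp : p ≠ 2) : IsUnit (4 : ℤ_[p]) := by
  have h2 : IsUnit (2 : ℤ_[p]) := by
    rw [PadicInt.isUnit_iff]
    have h1 : ‖((2 : ℕ) : ℤ_[p])‖ = 1 := by
      rw [PadicInt.norm_natCast_eq_one_iff]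
      exact (Nat.coprime_primes Nat.prime_two Fact.out).mpr hp.symm |>.symm
    simpa using h1
  have : (4 : ℤ_[p]) = 2 * 2 := by norm_num
  rw [this]
  exact h2.mul h2

theorem isUnit_one_add {x : ℤ_[p]} (hx : ‖x‖ < 1) : IsUnit (1 + x) := by
  have h1 : -x ∈ nonunits ℤ_[p] := by
    rw [PadicInt.mem_nonunits, norm_neg]
    exact hx
  have := IsLocalRing.isUnit_one_sub_self_of_mem_nonunits (-x) h1
  rwa [sub_neg_eq_add] at this

/-- `A N` is an ideal. -/
theorem mul_mem_A (hp : p ≠ 2) {N : Subgroup (SLp p)} (hN : N.Normal) {x : ℤ_[p]} (hx : x ∈ A N)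
    (r : ℤ_[p]) : r * x ∈ A N := by
  obtain ⟨n, -, hn⟩ := PadicInt.exists_mem_range r
  have hm : ‖r - n‖ < 1 := by
    rw [← PadicInt.mem_nonunits]
    exact (IsLocalRing.mem_maximalIdeal _).mp hn
  obtain ⟨f, hf⟩ := four_unit (p := p) hp
  set y : ℤ_[p] := ((f⁻¹ : ℤ_[p]ˣ) : ℤ_[p]) * (r - n) with hy
  have hy1 : ‖y‖ < 1 := by
    rw [hy, norm_mul]
    have : ‖((f⁻¹ : ℤ_[p]ˣ) : ℤ_[p])‖ = 1 := PadicInt.norm_units _
    rw [this, one_mul]
    exact hm
  have h1 := sq_mul_mem hN hx (isUnit_one_add hy1)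
  have h2 := sq_mul_mem hN hx (isUnit_one_add (x := -y) (by rwa [norm_neg]))
  have h3 : (n : ℕ) • x ∈ A N := (A N).nsmul_mem hx n
  have h4 := (A N).add_mem ((A N).sub_mem h1 h2) h3
  have h5 : (4 : ℤ_[p]) * y = r - n := by
    rw [hy, ← hf, ← mul_assoc, Units.mul_inv, one_mul]
  have h6 : (1 + y) ^ 2 * x - (1 + -y) ^ 2 * x + n • x = r * x := by
    rw [nsmul_eq_mul]
    linear_combination x * h5
  rwa [h6] at h4

theorem l_mem (hp : p ≠ 2) {N : Subgroup (SLp p)} (hN : N.Normal) {x : ℤ_[p]} (hx : x ∈ A N) :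
    l x ∈ N := by
  have h1 : u (-x) ∈ N := (A N).neg_mem hx
  have h2 := hN.conj_mem _ h1 w
  rw [w_conj_u, neg_neg] at h2
  exact h2

/-- The multiples of a nonzero element are a neighbourhood of zero. -/
theorem dvd_nhds {y : ℤ_[p]} (hy : y ≠ 0) : {x : ℤ_[p] | y ∣ x} ∈ 𝓝 (0 : ℤ_[p]) := by
  have hpos : (0 : ℝ) < (p : ℝ) ^ (-(y.valuation : ℤ)) := by
    have : (0 : ℝ) < p := by exact_mod_cast (Fact.out : p.Prime).pos
    positivity
  refine Filter.mem_of_superset (Metric.closedBall_mem_nhds 0 hpos) ?_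
  intro x hx
  rw [mem_closedBall_zero_iff, PadicInt.norm_le_pow_iff_mem_span_pow,
    Ideal.mem_span_singleton] at hx
  obtain ⟨t, ht⟩ := hx
  refine ⟨((PadicInt.unitCoeff hy)⁻¹ : ℤ_[p]ˣ) * t, ?_⟩
  have h1 := PadicInt.unitCoeff_spec hy
  have h2 : y * ((((PadicInt.unitCoeff hy)⁻¹ : ℤ_[p]ˣ) : ℤ_[p]) * t) =
      ((PadicInt.unitCoeff hy : ℤ_[p]) * (((PadicInt.unitCoeff hy)⁻¹ : ℤ_[p]ˣ) : ℤ_[p])) *
        ((p : ℤ_[p]) ^ y.valuation * t) := by
    nth_rewrite 1 [h1]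
    ring
  rw [h2, Units.mul_inv, one_mul, ht]

/-- A normal subgroup that contains a nontrivial unipotent element is open. -/
theorem isOpen_of_unipotent (hp : p ≠ 2) {N : Subgroup (SLp p)} (hN : N.Normal) {y : ℤ_[p]}
    (hy0 : y ≠ 0) (hy : y ∈ A N) : IsOpen (N : Set (SLp p)) := by
  have hpp : (p : ℤ_[p]) ≠ 0 := by exact_mod_cast (Fact.out : p.Prime).ne_zero
  apply Subgroup.isOpen_of_mem_nhds (g := 1)
  have hc : ∀ i j, Continuous fun g : SLp p => g.1 i j := fun i j =>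
    (continuous_apply j).comp ((continuous_apply i).comp continuous_subtype_val)
  have h1 : {g : SLp p | y * (y * p) ∣ g.1 0 0 - 1} ∈ 𝓝 (1 : SLp p) := by
    have h2 : Continuous fun g : SLp p => g.1 0 0 - 1 := (hc 0 0).sub continuous_const
    have h3 : {x : ℤ_[p] | y * (y * p) ∣ x} ∈ 𝓝 ((1 : SLp p).1 0 0 - 1) := by
      have : (1 : SLp p).1 0 0 - 1 = 0 := by simp
      rw [this]
      exact dvd_nhds (mul_ne_zero hy0 (mul_ne_zero hy0 hpp))
    exact h2.continuousAt h3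
  have h2 : {g : SLp p | y ∣ g.1 0 1} ∈ 𝓝 (1 : SLp p) := by
    have h3 : {x : ℤ_[p] | y ∣ x} ∈ 𝓝 ((1 : SLp p).1 0 1) := by
      have : (1 : SLp p).1 0 1 = 0 := by simp
      rw [this]
      exact dvd_nhds hy0
    exact (hc 0 1).continuousAt h3
  have h3 : {g : SLp p | y ∣ g.1 1 0} ∈ 𝓝 (1 : SLp p) := by
    have h3 : {x : ℤ_[p] | y ∣ x} ∈ 𝓝 ((1 : SLp p).1 1 0) := by
      have : (1 : SLp p).1 1 0 = 0 := by simp
      rw [this]
      exact dvd_nhds hy0
    exact (hc 1 0).continuousAt h3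
  filter_upwards [h1, h2, h3] with g hg1 hg2 hg3
  obtain ⟨t, ht⟩ := hg1
  obtain ⟨x, hx⟩ := hg2
  obtain ⟨z, hz⟩ := hg3
  have h00 : g.1 0 0 = 1 + y * (y * p * t) := by linear_combination ht
  have hu : IsUnit (g.1 0 0) := by
    rw [h00]
    apply isUnit_one_add
    have : ‖y * (y * p * t)‖ = ‖(p : ℤ_[p])‖ * ‖y * y * t‖ := by
      rw [← norm_mul]; congr 1; ring
    rw [this]
    have h4 : ‖(p : ℤ_[p])‖ < 1 := by
      rw [PadicInt.norm_p]
      exact inv_lt_one_of_one_lt₀ (by exact_mod_cast (Fact.out : p.Prime).one_lt)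
    calc ‖(p : ℤ_[p])‖ * ‖y * y * t‖ ≤ ‖(p : ℤ_[p])‖ * 1 :=
          mul_le_mul_of_nonneg_left (PadicInt.norm_le_one _) (norm_nonneg _)
      _ < 1 := by rwa [mul_one]
  obtain ⟨v, hv⟩ := hu
  have hvr : g.1 0 0 * ((v⁻¹ : ℤ_[p]ˣ) : ℤ_[p]) = 1 := by rw [← hv]; exact v.mul_inv
  have hA : ∀ r, y * r ∈ A N := fun r => by rw [mul_comm]; exact mul_mem_A hp hN hy r
  have hL : ∀ r, l (y * r) ∈ N := fun r => l_mem hp hN (hA r)
  have hU : ∀ r, u (y * r) ∈ N := hA
  show g ∈ N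
  rw [decomp g _ hvr, diag_eq _ _ y (y * p * t) hvr h00]
  refine N.mul_mem (N.mul_mem ?_ (N.mul_mem (N.mul_mem (N.mul_mem ?_ ?_) ?_) ?_)) ?_
  · rw [hz, mul_assoc]; exact hL _
  · have : -(y * p * t) * ((v⁻¹ : ℤ_[p]ˣ) : ℤ_[p]) = y * (-(p * t) * ((v⁻¹ : ℤ_[p]ˣ) : ℤ_[p])) := by
      ring
    rw [this]; exact hL _
  · exact hy
  · rw [mul_assoc]; exact hL _
  · have : -y * ((v⁻¹ : ℤ_[p]ˣ) : ℤ_[p]) = y * (-((v⁻¹ : ℤ_[p]ˣ) : ℤ_[p])) := by
      ring
    rw [this]; exact hU _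
  · rw [hx, mul_assoc]; exact hU _

/-- From an element with nonzero lower left entry to a unipotent element. -/
theorem exists_unipotent (hp : p ≠ 2) {N : Subgroup (SLp p)} (hN : N.Normal) {g : SLp p}
    (hg : g ∈ N) (hc : g.1 1 0 ≠ 0) : ∃ y, y ≠ 0 ∧ y ∈ A N := by
  have hpp : (p : ℤ_[p]) ≠ 0 := by exact_mod_cast (Fact.out : p.Prime).ne_zero
  have hpn : ‖(p : ℤ_[p]) * g.1 1 0‖ < 1 := by
    rw [norm_mul]
    have h4 : ‖(p : ℤ_[p])‖ < 1 := by
      rw [PadicInt.norm_p]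
      exact inv_lt_one_of_one_lt₀ (by exact_mod_cast (Fact.out : p.Prime).one_lt)
    calc ‖(p : ℤ_[p])‖ * ‖g.1 1 0‖ ≤ ‖(p : ℤ_[p])‖ * 1 :=
          mul_le_mul_of_nonneg_left (PadicInt.norm_le_one _) (norm_nonneg _)
      _ < 1 := by rwa [mul_one]
  obtain ⟨v, hv⟩ := isUnit_one_add hpn
  set s : ℤ_[p] := 1 + p * g.1 1 0 with hs
  set r : ℤ_[p] := ((v⁻¹ : ℤ_[p]ˣ) : ℤ_[p]) with hr
  have hsr : s * r = 1 := by rw [← hv]; exact v.mul_inv
  have hd := det_eq g
  set k : SLp p := b s r (-(g.1 0 0 * r * p * (1 + s))) hsr with hk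
  have hmem : g⁻¹ * (k * g * k⁻¹) ∈ N := N.mul_mem (N.inv_mem hg) (hN.conj_mem _ hg k)
  set h : SLp p := g⁻¹ * (k * g * k⁻¹) with hh
  have h10 : h.1 1 0 = 0 := by
    rw [hh, hk]
    simp only [mul00, mul01, mul10, mul11, inv00, inv01, inv10, inv11, b00, b01, b10, b11]
    linear_combination (g.1 1 0 * r * g.1 0 0 * s) * hsr -
      (g.1 1 0 * r ^ 2 * g.1 0 0 * (1 + s)) * hs
  have h00 : h.1 0 0 = r ^ 2 := by
    rw [hh, hk]
    simp only [mul00, mul01, mul10, mul11, inv00, inv01, inv10, inv11, b00, b01, b10, b11]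
    linear_combination (-g.1 1 1 * g.1 0 0 * r * s) * hsr + r ^ 2 * hd +
      (g.1 1 1 * g.1 0 0 * r ^ 2 * (1 + s)) * hs
  have hmem2 : h * u 1 * h⁻¹ * (u 1)⁻¹ ∈ N := by
    have : h * u 1 * h⁻¹ * (u 1)⁻¹ = h * (u 1 * h⁻¹ * (u 1)⁻¹) := by group
    rw [this]
    exact N.mul_mem hmem (hN.conj_mem _ (N.inv_mem hmem) _)
  rw [comm_u h h10, h00] at hmem2
  refine ⟨_, ?_, hmem2⟩
  intro h0
  -- `s ^ 4 = 1`
  have h1 : (s - 1) * ((s + 1) * (s ^ 2 + 1)) = 0 := by
    have h2 : (r * s) ^ 4 = 1 := by rw [mul_comm r s, hsr, one_pow]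
    have h3 : r ^ 4 = 1 := by linear_combination h0
    have h4 : s ^ 4 = 1 := by
      rw [mul_pow, h3, one_mul] at h2
      exact h2
    linear_combination h4
  have h2n : ‖(2 : ℤ_[p])‖ = 1 := by
    have h1 : ‖((2 : ℕ) : ℤ_[p])‖ = 1 := by
      rw [PadicInt.norm_natCast_eq_one_iff]
      exact (Nat.coprime_primes Nat.prime_two Fact.out).mpr hp.symm |>.symm
    simpa using h1
  have hs1 : s - 1 ≠ 0 := by
    rw [hs, add_sub_cancel_left]
    exact mul_ne_zero hpp hc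
  rcases mul_eq_zero.mp ((mul_eq_zero.mp h1).resolve_left hs1) with h5 | h5
  · have h6 : (2 : ℤ_[p]) = -(p * g.1 1 0) := by linear_combination h5 - hs
    rw [h6, norm_neg] at h2n
    linarith
  · have h6 : (2 : ℤ_[p]) = -(p * g.1 1 0) * (2 + p * g.1 1 0) := by
      have : s ^ 2 + 1 = 2 + p * g.1 1 0 * (2 + p * g.1 1 0) := by rw [hs]; ring
      linear_combination h5 - this
    rw [h6, norm_mul, norm_neg] at h2n
    have h7 : ‖(2 : ℤ_[p]) + p * g.1 1 0‖ ≤ 1 := PadicInt.norm_le_one _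
    have h8 : ‖(p : ℤ_[p]) * g.1 1 0‖ * ‖(2 : ℤ_[p]) + p * g.1 1 0‖ ≤
        ‖(p : ℤ_[p]) * g.1 1 0‖ * 1 := mul_le_mul_of_nonneg_left h7 (norm_nonneg _)
    linarith

/-- A normal subgroup of `SL₂(ℤ_p)` is open or consists of scalar matrices. -/
theorem open_or_scalar (hp : p ≠ 2) {N : Subgroup (SLp p)} (hN : N.Normal) :
    IsOpen (N : Set (SLp p)) ∨ ∀ g ∈ N, g.1 0 1 = 0 ∧ g.1 1 0 = 0 ∧ g.1 0 0 = g.1 1 1 := by
  by_cases hc : ∃ g ∈ N, g.1 1 0 ≠ 0
  · obtain ⟨g, hg, hc⟩ := hc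
    obtain ⟨y, hy0, hy⟩ := exists_unipotent hp hN hg hc
    exact Or.inl (isOpen_of_unipotent hp hN hy0 hy)
  · right
    push Not at hc
    have h01 : ∀ g ∈ N, g.1 0 1 = 0 := by
      intro g hg
      have h1 := hc _ (hN.conj_mem g hg w)
      simp only [mul00, mul01, mul10, mul11, inv00, inv01, inv10, inv11, w00, w01, w10, w11] at h1
      linear_combination -h1
    intro g hg
    refine ⟨h01 g hg, hc g hg, ?_⟩
    have h1 := h01 _ (hN.conj_mem g hg (u 1))
    have h2 := h01 g hg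
    have h3 := hc g hg
    simp only [mul00, mul01, mul10, mul11, inv00, inv01, inv10, inv11, u00, u01, u10, u11,
      h2, h3] at h1
    linear_combination -h1

theorem finite_or_finiteIndex (hp : p ≠ 2) [CompactSpace (SLp p)] (N : Subgroup (SLp p))
    (hN : N.Normal) : (N : Set (SLp p)).Finite ∨ Finite (SLp p ⧸ N) := by
  rcases open_or_scalar hp hN with h | h
  · exact Or.inr (Subgroup.quotient_finite_of_isOpen N h)
  · left
    refine Set.Finite.subset (Set.toFinite {b 1 1 0 (by ring), b (-1) (-1) 0 (by ring)}) ?_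
    intro g hg
    obtain ⟨h1, h2, h3⟩ := h g hg
    have hd := det_eq g
    rw [h1, h2, ← h3] at hd
    have h4 : (g.1 0 0 - 1) * (g.1 0 0 + 1) = 0 := by linear_combination hd
    rcases mul_eq_zero.mp h4 with h5 | h5
    · left
      have h6 : g.1 0 0 = 1 := by linear_combination h5
      apply ext4
      · rw [b00, h6]
      · rw [b01, h1]
      · rw [b10, h2]
      · rw [b11, ← h3, h6]
    · right
      have h6 : g.1 0 0 = -1 := by linear_combination h5
      apply ext4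
      · rw [b00, h6]
      · rw [b01, h1]
      · rw [b10, h2]
      · rw [b11, ← h3, h6]

theorem compactSpace_SLp : CompactSpace (SLp p) := by
  haveI : CompactSpace (Matrix (Fin 2) (Fin 2) ℤ_[p]) :=
    inferInstanceAs (CompactSpace (Fin 2 → Fin 2 → ℤ_[p]))
  exact (Matrix.SpecialLinearGroup.isClosedEmbedding_val (n := Fin 2) (R := ℤ_[p])).compactSpace

theorem metrizable_SLp : TopologicalSpace.MetrizableSpace (SLp p) := by
  haveI : TopologicalSpace.MetrizableSpace (Matrix (Fin 2) (Fin 2) ℤ_[p]) :=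
    inferInstanceAs (TopologicalSpace.MetrizableSpace (Fin 2 → Fin 2 → ℤ_[p]))
  exact (Matrix.SpecialLinearGroup.isClosedEmbedding_val (n := Fin 2)
    (R := ℤ_[p])).isEmbedding.metrizableSpace

theorem totallyDisconnected_SLp : TotallyDisconnectedSpace (SLp p) := by
  haveI : TotallyDisconnectedSpace (Matrix (Fin 2) (Fin 2) ℤ_[p]) :=
    inferInstanceAs (TotallyDisconnectedSpace (Fin 2 → Fin 2 → ℤ_[p]))
  constructor
  intro t _ ht
  have h1 := ht.image Subtype.val (continuous_subtype_val.continuousOn)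
  exact fun a ha b hb => Subtype.val_injective (h1.subsingleton ⟨a, ha, rfl⟩ ⟨b, hb, rfl⟩)

theorem nonarch (G : Type) [Group G] [TopologicalSpace G] [IsTopologicalGroup G] [T2Space G]
    [CompactSpace G] [TotallyDisconnectedSpace G] : NonarchimedeanGroup G where
  is_nonarchimedean := by
    intro U hU
    obtain ⟨W, hW, hW1, hWU⟩ := (loc_compact_Haus_tot_disc_of_zero_dim (H := G)).mem_nhds_iff.mp hU
    obtain ⟨V, hV⟩ := IsTopologicalGroup.exist_openSubgroup_sub_clopen_nhds_of_one hW hW1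
    exact ⟨V, hV.trans hWU⟩

theorem uncountable_Zp : Uncountable ℤ_[p] := by
  by_contra h
  rw [not_uncountable_iff] at h
  have h1 : Function.Surjective fun t : ℤ_[p] × ℤ_[p] => (t.1 : ℚ_[p]) / (t.2 : ℚ_[p]) := by
    intro q
    obtain ⟨a, c, -, hac⟩ := IsFractionRing.div_surjective (A := ℤ_[p]) q
    exact ⟨(a, c), hac⟩
  have h2 : Countable ℚ_[p] := h1.countable
  have h3 := continuum_le_cardinal_of_nontriviallyNormedField ℚ_[p]
  have h4 := Cardinal.mk_le_aleph0_iff.mpr h2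
  exact absurd (h3.trans h4) (not_le.mpr Cardinal.aleph0_lt_continuum)

/-- There is an uncountable compact metrizable non-archimedean group all of whose normal subgroups,
closed or not, definable or not, are finite or of finite index. -/
theorem result : ∃ (G : Type) (_ : Group G) (_ : TopologicalSpace G) (_ : NonarchimedeanGroup G)
    (_ : CompactSpace G) (_ : TopologicalSpace.MetrizableSpace G), Uncountable G ∧
    ∀ N : Subgroup G, N.Normal → Finite N ∨ Finite (G ⧸ N) := by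
  haveI : Fact (Nat.Prime 3) := ⟨Nat.prime_three⟩
  haveI := compactSpace_SLp (p := 3)
  haveI := metrizable_SLp (p := 3)
  haveI := totallyDisconnected_SLp (p := 3)
  refine ⟨SLp 3, inferInstance, inferInstance, nonarch _, inferInstance, inferInstance, ?_, ?_⟩
  · haveI := uncountable_Zp (p := 3)
    apply Function.Injective.uncountable (f := u)
    intro x y hxy
    have := congrArg (fun g : SLp 3 => g.1 0 1) hxy
    exact this
  · intro N hN
    exact finite_or_finiteIndex (by norm_num) N hN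

end Pool.Agent.Results.MP_847604_al.SL2Zp
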